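import Mathlib
import Pool.Graph.R_seed8.Helper868.RegFour6

set_option autoImplicit false

namespace KS6_98.R4

open Subgroup H868.RegFour

section Basics

variable {G : Type*} [Group G]

/-- every finite subset of the subgroup generates a finite soluble subgroup -/
def LS (K : Subgroup G) : Prop :=
  LFs K ∧ ∀ s : Finset G, (∀ x ∈ s, x ∈ K) → Group.IsSolvable (closure (s : Set G))

theorem LS.mono {K L : Subgroup G} (hKL : K ≤ L) (hL : LS L) : LS K :=
  ⟨hL.1.mono hKL, fun s hs => hL.2 s (fun x hx => hKL (hs x hx))⟩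

theorem LS_comm {K : Subgroup G} (hc : ∀ x ∈ K, ∀ y ∈ K, Commute x y)
    (ht : ∀ x : G, IsOfFinOrder x) : LS K := by
  refine ⟨LFs_comm hc ht, ?_⟩
  intro s hs
  have hsK : closure (s : Set G) ≤ K := (closure_le K).2 hs
  exact Group.isSolvable_of_comm (fun a b => Subtype.ext (hc _ (hsK a.2) _ (hsK b.2)).eq)

theorem LS_map_subtype {K : Subgroup G} {M : Subgroup ↥K} (hM : LS M) :
    LS (M.map K.subtype) := by
  classical
  refine ⟨LFs_map_subtype hM.1, ?_⟩
  intro s hs
  have hsK : ∀ x ∈ s, x ∈ K := by
    intro x hx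
    obtain ⟨y, _, hy⟩ := hs x hx
    rw [← hy]; exact y.2
  have hfin : Group.IsSolvable (closure ((s.subtype (· ∈ K) : Finset ↥K) : Set ↥K)) := by
    apply hM.2
    intro x hx
    rw [Finset.mem_subtype] at hx
    obtain ⟨y, hy, hyx⟩ := hs x.1 hx
    have : y = x := Subtype.ext hyx
    rw [← this]; exact hy
  have hcl : (closure (s : Set G)) =
      (closure ((s.subtype (· ∈ K) : Finset ↥K) : Set ↥K)).map K.subtype := by
    rw [MonoidHom.map_closure]
    congr 1
    ext x
    constructor
    · intro hx
      exact ⟨⟨x, hsK x hx⟩, by rw [Finset.mem_coe, Finset.mem_subtype]; exact hx, rfl⟩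
    · rintro ⟨y, hy, rfl⟩
      rw [Finset.mem_coe, Finset.mem_subtype] at hy
      exact hy
  rw [hcl]
  exact Group.isSolvable_of_surjective (MonoidHom.subgroupMap_surjective K.subtype _)

theorem LS_of_map_subtype {K : Subgroup G} {M : Subgroup ↥K} (hM : LS (M.map K.subtype)) :
    LS M := by
  classical
  refine ⟨LFs_of_map_subtype hM.1, ?_⟩
  intro s hs
  have hfin : Group.IsSolvable (closure ((s.image (K.subtype) : Finset G) : Set G)) := by
    apply hM.2
    intro x hx
    rw [Finset.mem_image] at hx
    obtain ⟨y, hy, rfl⟩ := hx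
    exact ⟨y, hs y hy, rfl⟩
  have hcl : (closure (s : Set ↥K)).map K.subtype =
      closure ((s.image (K.subtype) : Finset G) : Set G) := by
    rw [MonoidHom.map_closure, Finset.coe_image]
  rw [← hcl] at hfin
  have hinj : Function.Injective (K.subtype.subgroupMap (closure (s : Set ↥K))) := by
    intro a b hab
    apply Subtype.ext
    apply K.subtype_injective
    have := congrArg Subtype.val hab
    exact this
  exact Group.isSolvable_of_isSolvable_injective hinj

theorem LS_ext {N M : Subgroup G} [N.Normal] (hN : LS N)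
    (hM : LS (M.map (QuotientGroup.mk' N))) : LS M := by
  classical
  refine ⟨LFs_ext hN.1 hM.1, ?_⟩
  intro s hs
  have hFfin : Finite (closure (s : Set G)) := LFs_ext hN.1 hM.1 s hs
  set F := closure (s : Set G) with hF
  set f : ↥F →* G ⧸ N := (QuotientGroup.mk' N).comp F.subtype with hf
  have hrange : f.range = closure ((s.image (QuotientGroup.mk' N) : Finset (G ⧸ N)) : Set (G ⧸ N)) := by
    rw [hf, MonoidHom.range_comp, F.range_subtype, hF, MonoidHom.map_closure, Finset.coe_image]
  have hr : Group.IsSolvable f.range := by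
    rw [hrange]
    apply hM.2
    intro x hx
    rw [Finset.mem_image] at hx
    obtain ⟨y, hy, rfl⟩ := hx
    exact ⟨y, hs y hy, rfl⟩
  have hk : Group.IsSolvable ↥f.ker := by
    have hfinset : ((f.ker.map F.subtype : Subgroup G) : Set G).Finite := by
      rw [Subgroup.coe_map]
      exact (Set.toFinite _).image _
    have hle : ∀ x ∈ hfinset.toFinset, x ∈ N := by
      intro x hx
      rw [Set.Finite.mem_toFinset] at hx
      obtain ⟨y, hy, rfl⟩ := hx
      have hy' : f y = 1 := hy
      rw [hf] at hy'
      exact (QuotientGroup.eq_one_iff (y : G)).1 hy'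
    have hsol := hN.2 hfinset.toFinset hle
    rw [Set.Finite.coe_toFinset, closure_eq] at hsol
    have hinj : Function.Injective (F.subtype.subgroupMap f.ker) := by
      intro a b hab
      apply Subtype.ext
      apply F.subtype_injective
      have := congrArg Subtype.val hab
      exact this
    exact Group.isSolvable_of_isSolvable_injective hinj
  have h1 : Group.IsSolvable f.rangeRestrict.ker := by
    rw [MonoidHom.ker_rangeRestrict]; exact hk
  exact Group.isSolvable_of_ker_le_range (f.rangeRestrict.ker.subtype) f.rangeRestrict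
    (by rw [Subgroup.range_subtype])

/-- maximal locally soluble and locally finite normal invariant subgroup -/
theorem exists_radical (φ : G →* G) : ∃ R : Subgroup G, R.Normal ∧ (∀ x ∈ R, φ x ∈ R) ∧ LS R ∧
    ∀ M : Subgroup G, M.Normal → (∀ x ∈ M, φ x ∈ M) → LS M → R ≤ M → M = R := by
  obtain ⟨R, hR⟩ := zorn_le₀ {R : Subgroup G | R.Normal ∧ (∀ x ∈ R, φ x ∈ R) ∧ LS R} (by
    intro c hc hchain
    rcases c.eq_empty_or_nonempty with rfl | hne
    · refine ⟨⊥, ⟨inferInstance, ?_, ?_⟩, by simp⟩
      · intro x hx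
        rw [Subgroup.mem_bot] at hx ⊢
        rw [hx, map_one]
      · have : ∀ s : Finset G, (∀ x ∈ s, x ∈ (⊥ : Subgroup G)) → closure (s : Set G) = ⊥ := by
          intro s hs
          rw [eq_bot_iff, closure_le]; exact hs
        refine ⟨fun s hs => ?_, fun s hs => ?_⟩
        · rw [this s hs]; infer_instance
        · rw [this s hs]; infer_instance
    · have hdir := hchain.directedOn
      refine ⟨sSup c, ⟨⟨?_⟩, ?_, ?_, ?_⟩, fun z hz => le_sSup hz⟩
      · intro x hx g
        obtain ⟨K, hK, hxK⟩ := (Subgroup.mem_sSup_of_directedOn hne hdir).1 hx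
        exact (Subgroup.mem_sSup_of_directedOn hne hdir).2 ⟨K, hK, (hc hK).1.conj_mem x hxK g⟩
      · intro x hx
        obtain ⟨K, hK, hxK⟩ := (Subgroup.mem_sSup_of_directedOn hne hdir).1 hx
        exact (Subgroup.mem_sSup_of_directedOn hne hdir).2 ⟨K, hK, (hc hK).2.1 x hxK⟩
      · intro s hs
        obtain ⟨K, hK, hKs⟩ := mem_chain hne hdir s hs
        exact (hc hK).2.2.1 s hKs
      · intro s hs
        obtain ⟨K, hK, hKs⟩ := mem_chain hne hdir s hs
        exact (hc hK).2.2.2 s hKs)
  refine ⟨R, hR.1.1, hR.1.2.1, hR.1.2.2, ?_⟩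
  intro M h1 h2 h3 h4
  exact le_antisymm (hR.2 ⟨h1, h2, h3⟩ h4) h4

end Basics

end KS6_98.R4
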