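import Mathlib
import Pool.Agent.KS6_98.R4.Soluble

set_option autoImplicit false

namespace KS6_98.R4

open Subgroup H868.RegFour

section Conj

variable {G : Type*} [Group G] {φ : G →* G}

/-- if all conjugates of `C` inside `K` lie in a locally finite and soluble subgroup then `K` is locally
finite -/
theorem LS_of_conj (h : Cls φ) {K L : Subgroup G} (hK : ∀ x ∈ K, φ x ∈ K)
    (hL : LS L) (hc : ∀ c ∈ Cs φ, ∀ k ∈ K, k * c * k⁻¹ ∈ L) : LS K := by
  set ψ := resHom φ K hK with hψ
  have hψC : Cls ψ := h.res K hK
  set N := normalClosure (Cs ψ : Set ↥K) with hN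
  have hNL : N ≤ L.comap K.subtype := by
    rw [hN, normalClosure, closure_le]
    intro x hx
    rw [Group.mem_conjugatesOfSet_iff] at hx
    obtain ⟨c, hcC, hcx⟩ := hx
    rw [isConj_iff] at hcx
    obtain ⟨k, rfl⟩ := hcx
    have hc' : (c : G) ∈ Cs φ := by
      have : ψ (ψ c) = c := hcC
      exact congrArg (fun t : ↥K => (t : G)) this
    exact hc c hc' k k.2
  have hNLF : LS N := by
    apply LS_of_map_subtype
    refine LS.mono ?_ hL
    rintro _ ⟨x, hx, rfl⟩
    exact hNL hx
  have hcomm : ∀ x ∈ (⊤ : Subgroup ↥K).map (QuotientGroup.mk' N),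
      ∀ y ∈ (⊤ : Subgroup ↥K).map (QuotientGroup.mk' N), Commute x y := by
    rintro _ ⟨x, _, rfl⟩ _ ⟨y, _, rfl⟩
    obtain ⟨c, hc1, p, hp, hxp⟩ := hψC.decomp x
    obtain ⟨e, he1, q, hq, hyq⟩ := hψC.decomp y
    obtain ⟨z, hz, hs⟩ := hψC.swap hp hq
    have hC1 : ∀ t ∈ Cs ψ, (QuotientGroup.mk' N) t = 1 := by
      intro t ht
      exact (QuotientGroup.eq_one_iff t).2 (subset_normalClosure ht)
    have hx1 : (QuotientGroup.mk' N) x = (QuotientGroup.mk' N) p := by
      rw [hxp, map_mul, hC1 c hc1, one_mul]
    have hy1 : (QuotientGroup.mk' N) y = (QuotientGroup.mk' N) q := by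
      rw [hyq, map_mul, hC1 e he1, one_mul]
    rw [hx1, hy1]
    have := congrArg (QuotientGroup.mk' N) hs
    simp only [map_mul, hC1 z hz, one_mul, mul_one] at this
    exact this.symm
  have htop : LS (⊤ : Subgroup ↥K) := by
    apply LS_ext hNLF
    apply LS_comm hcomm
    intro x
    induction x using QuotientGroup.induction_on with
    | H g =>
      obtain ⟨m, hm⟩ := hψC.odd g
      rw [isOfFinOrder_iff_pow_eq_one]
      exact ⟨2 * m + 1, by omega, by rw [← QuotientGroup.mk_pow, hm]; rfl⟩
  have := LS_map_subtype htop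
  rw [← MonoidHom.range_eq_map, K.range_subtype] at this
  exact this


end Conj

section Core

variable {G : Type*} [Group G] {φ : G →* G}

/-- port of the library's `core` to the class of locally finite and soluble subgroups -/
theorem core (h : Cls φ) (S : Set G) (hS : ∀ s ∈ S, Inv φ s) (hgen : Gen φ S = ⊤)
    (hrad : ∀ N : Subgroup G, N.Normal → (∀ x ∈ N, φ x ∈ N) → LS N → N = ⊥)
    (hLF : ∀ s ∈ S, LS (Gen φ (S \ {s}))) : ∀ s ∈ S, s = 1 := by
  classical
  -- factorisation
  have hfac : ∀ s ∈ S, ∀ g : G, ∃ k ∈ Gen φ (S \ {s}), ∃ a ∈ Gen φ {s}, g = k * a := by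
    intro s hs g
    apply sup_eq_mul h (C_le_Gen _) (C_le_Gen _)
    have : (⊤ : Subgroup G) ≤ Gen φ (S \ {s}) ⊔ Gen φ {s} := by
      rw [← hgen]
      apply Gen_le
      · exact (C_le_Gen _).trans le_sup_left
      · intro x hx
        by_cases hxs : x = s
        · rw [hxs]
          exact ⟨(le_sup_right : Gen φ {s} ≤ _) (mem_Gen rfl),
            (le_sup_right : Gen φ {s} ≤ _) (phi_mem_Gen rfl)⟩
        · exact ⟨(le_sup_left : Gen φ (S \ {s}) ≤ _) (mem_Gen ⟨hx, hxs⟩),
            (le_sup_left : Gen φ (S \ {s}) ≤ _) (phi_mem_Gen ⟨hx, hxs⟩)⟩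
    exact this (mem_top g)
  have hSd : ∀ s : G, ∀ x ∈ S \ {s}, Inv φ x := fun s x hx => hS x hx.1
  -- centralizers
  have hcen : ∀ s ∈ S, ∀ c ∈ Cs φ, Commute c s → c = 1 := by
    intro s hs c hc hcs
    have hcs' : Commute c (φ s) := by
      have := hcs.map φ
      rw [h.phi_C hc] at this
      have h2 := this.inv_left
      rwa [inv_inv] at h2
    have hcH : ∀ a ∈ Gen φ {s}, Commute c a := by
      have hle : Gen φ {s} ≤ Subgroup.centralizer {c} := by
        apply Gen_le
        · intro x hx
          rw [Subgroup.mem_centralizer_singleton_iff]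
          exact (h.comm_C hx hc).eq
        · intro x hx
          rw [Set.mem_singleton_iff] at hx
          rw [hx]
          exact ⟨Subgroup.mem_centralizer_singleton_iff.2 hcs.symm.eq,
            Subgroup.mem_centralizer_singleton_iff.2 hcs'.symm.eq⟩
      intro a ha
      exact (Subgroup.mem_centralizer_singleton_iff.1 (hle ha) : a * c = c * a).symm
    have hN : normalClosure {c} = ⊥ := by
      apply hrad _ inferInstance
      · have : normalClosure {c} ≤ (normalClosure {c}).comap φ := by
          apply normalClosure_le_normal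
          rw [Set.singleton_subset_iff]
          change φ c ∈ normalClosure {c}
          rw [h.phi_C hc]
          exact inv_mem (subset_normalClosure rfl)
        exact this
      · refine LS.mono ?_ (hLF s hs)
        rw [normalClosure, closure_le]
        intro x hx
        rw [Group.mem_conjugatesOfSet_iff] at hx
        obtain ⟨y, hy, hyx⟩ := hx
        rw [Set.mem_singleton_iff] at hy
        rw [hy, isConj_iff] at hyx
        obtain ⟨g, rfl⟩ := hyx
        obtain ⟨k, hk, a, ha, rfl⟩ := hfac s hs g
        have e : k * a * c * (k * a)⁻¹ = k * c * k⁻¹ := by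
          calc k * a * c * (k * a)⁻¹ = k * (a * c) * a⁻¹ * k⁻¹ := by group
            _ = k * (c * a) * a⁻¹ * k⁻¹ := by rw [(hcH a ha).eq]
            _ = k * c * k⁻¹ := by group
        rw [e]
        exact mul_mem (mul_mem hk (C_le_Gen _ hc)) (inv_mem hk)
    have : c ∈ normalClosure {c} := subset_normalClosure rfl
    rw [hN, Subgroup.mem_bot] at this
    exact this
  -- the flats are inverted
  have hflat : ∀ s ∈ S, ∀ x ∈ Fl φ s, Inv φ x := by
    intro s hs
    apply Fl_inv h (hS s hs)
    intro c hc
    obtain ⟨z, hz, hzs⟩ := h.swap (hS s hs) (Cls.inv_conj (hS s hs) hc)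
    have hzc : Commute z s := by
      apply h.L2 (hS s hs) (Cls.inv_conj (hS s hs) hc) ?_ ?_ hz hzs
      · intro d hd
        have h1 := h.L1 (hS s hs) (mul_mem hd (inv_mem hc))
        have e : d * φ (c * s * c⁻¹) * d⁻¹ = d * c⁻¹ * φ s * (d * c⁻¹)⁻¹ := by
          simp only [map_mul, map_inv, h.phi_C hc]; group
        rw [e]; exact h1
      · intro d hd
        have h1 := h.L1 (hS s hs) (mul_mem (inv_mem hc) hd)
        have h2 : Commute (c * s * c⁻¹) (c * (c⁻¹ * d * φ s * (c⁻¹ * d)⁻¹) * c⁻¹) :=
          (Commute.conj_iff c).2 h1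
        have e : c * (c⁻¹ * d * φ s * (c⁻¹ * d)⁻¹) * c⁻¹ = d * φ s * d⁻¹ := by group
        rwa [e] at h2
    have hz1 := hcen s hs z hz hzc
    rw [hz1, one_mul, mul_one] at hzs
    exact hzs.symm
  -- elements of the flat centralised by `C` vanish
  have htriv : ∀ s ∈ S, ∀ t ∈ Fl φ s, (∀ x ∈ Cs φ, Commute x t) → t = 1 := by
    intro s hs t ht htc
    have htI : Inv φ t := hflat s hs t ht
    have ht' : φ t ∈ Fl φ s := Fl_phi h (hS s hs) t ht
    have htc' : ∀ x ∈ Cs φ, Commute x (φ t) := by
      intro x hx
      have := (htc x hx).map φ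
      rw [h.phi_C hx] at this
      have h2 := this.inv_left
      rwa [inv_inv] at h2
    -- the larger invariant subgroup
    set K := Gen φ (insert t (S \ {s})) with hK
    have hKI : ∀ x ∈ insert t (S \ {s}), Inv φ x := by
      intro x hx
      rcases Set.mem_insert_iff.1 hx with rfl | hx
      · exact htI
      · exact hS x hx.1
    have hGK : Gen φ (S \ {s}) ≤ K := by
      apply Gen_le (C_le_Gen _)
      intro x hx
      exact ⟨mem_Gen (Set.mem_insert_of_mem _ hx), phi_mem_Gen (Set.mem_insert_of_mem _ hx)⟩
    have hKfac : ∀ g ∈ K, ∃ k ∈ Gen φ (S \ {s}), ∃ a ∈ Gen φ {t}, g = k * a := by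
      intro g hg
      apply sup_eq_mul h (C_le_Gen _) (C_le_Gen _)
      have : K ≤ Gen φ (S \ {s}) ⊔ Gen φ {t} := by
        apply Gen_le
        · exact (C_le_Gen _).trans le_sup_left
        · intro x hx
          rcases Set.mem_insert_iff.1 hx with rfl | hx
          · exact ⟨(le_sup_right : Gen φ {x} ≤ _) (mem_Gen rfl),
              (le_sup_right : Gen φ {x} ≤ _) (phi_mem_Gen rfl)⟩
          · exact ⟨(le_sup_left : Gen φ (S \ {s}) ≤ _) (mem_Gen hx),
              (le_sup_left : Gen φ (S \ {s}) ≤ _) (phi_mem_Gen hx)⟩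
      exact this hg
    have hKLF : LS K := by
      apply LS_of_conj h (Gen_inv h hKI) (hLF s hs)
      intro c hc g hg
      obtain ⟨k, hk, a, ha, rfl⟩ := hKfac g hg
      have hca : Commute a c := by
        have hle : Gen φ {t} ≤ Subgroup.centralizer {c} := by
          apply Gen_le
          · intro x hx
            rw [Subgroup.mem_centralizer_singleton_iff]
            exact (h.comm_C hx hc).eq
          · intro x hx
            rw [Set.mem_singleton_iff] at hx
            rw [hx]
            exact ⟨Subgroup.mem_centralizer_singleton_iff.2 (htc c hc).symm.eq,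
              Subgroup.mem_centralizer_singleton_iff.2 (htc' c hc).symm.eq⟩
        exact (Subgroup.mem_centralizer_singleton_iff.1 (hle ha) : a * c = c * a)
      have e : k * a * c * (k * a)⁻¹ = k * c * k⁻¹ := by
        calc k * a * c * (k * a)⁻¹ = k * (a * c) * a⁻¹ * k⁻¹ := by group
          _ = k * (c * a) * a⁻¹ * k⁻¹ := by rw [hca.eq]
          _ = k * c * k⁻¹ := by group
      rw [e]
      exact mul_mem (mul_mem hk (C_le_Gen _ hc)) (inv_mem hk)
    -- `t` and its image commute with `Gen φ {s}`
    have hcomH : ∀ u ∈ Fl φ s, (∀ x ∈ Cs φ, Commute x u) → ∀ a ∈ Gen φ {s}, Commute a u := by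
      intro u hu huc a ha
      have hle : Gen φ {s} ≤ Subgroup.centralizer {u} := by
        apply Gen_le
        · intro x hx
          rw [Subgroup.mem_centralizer_singleton_iff]
          exact (huc x hx).eq
        · intro x hx
          rw [Set.mem_singleton_iff] at hx
          rw [hx]
          exact ⟨Subgroup.mem_centralizer_singleton_iff.2
              (Cls.commute_of_Inv (hflat s hs) mem_Fl hu).eq,
            Subgroup.mem_centralizer_singleton_iff.2
              (Cls.commute_of_Inv (hflat s hs) phi_mem_Fl hu).eq⟩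
      exact (Subgroup.mem_centralizer_singleton_iff.1 (hle ha) : a * u = u * a)
    have hconj : ∀ u ∈ Fl φ s, (∀ x ∈ Cs φ, Commute x u) → u ∈ K → ∀ g : G, g * u * g⁻¹ ∈ K := by
      intro u hu huc huK g
      obtain ⟨k, hk, a, ha, rfl⟩ := hfac s hs g
      have e : k * a * u * (k * a)⁻¹ = k * u * k⁻¹ := by
        calc k * a * u * (k * a)⁻¹ = k * (a * u) * a⁻¹ * k⁻¹ := by group
          _ = k * (u * a) * a⁻¹ * k⁻¹ := by rw [(hcomH u hu huc a ha).eq]
          _ = k * u * k⁻¹ := by group
      rw [e]
      exact mul_mem (mul_mem (hGK hk) huK) (inv_mem (hGK hk))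
    have hN : normalClosure {t, φ t} = ⊥ := by
      apply hrad _ inferInstance
      · have : normalClosure {t, φ t} ≤ (normalClosure {t, φ t}).comap φ := by
          apply normalClosure_le_normal
          intro x hx
          change φ x ∈ normalClosure {t, φ t}
          rcases hx with rfl | hx
          · exact subset_normalClosure (Or.inr rfl)
          · rw [Set.mem_singleton_iff] at hx
            rw [hx, show φ (φ t) = t⁻¹ from htI]
            exact inv_mem (subset_normalClosure (Or.inl rfl))
        exact this
      · refine LS.mono ?_ hKLF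
        rw [normalClosure, closure_le]
        intro x hx
        rw [Group.mem_conjugatesOfSet_iff] at hx
        obtain ⟨y, hy, hyx⟩ := hx
        rw [isConj_iff] at hyx
        obtain ⟨g, rfl⟩ := hyx
        rcases hy with rfl | hy
        · exact hconj y ht htc (mem_Gen (Set.mem_insert _ _)) g
        · rw [Set.mem_singleton_iff] at hy
          rw [hy]
          exact hconj _ ht' htc' (phi_mem_Gen (Set.mem_insert _ _)) g
    have : t ∈ normalClosure {t, φ t} := subset_normalClosure (Or.inl rfl)
    rw [hN, Subgroup.mem_bot] at this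
    exact this
  -- different flats commute
  have hcomm : ∀ s ∈ S, ∀ r ∈ S, ∀ q ∈ Fl φ r, Commute s q := by
    intro s hs r hr q hq
    obtain ⟨z, hz, hzs⟩ := h.swap (hS s hs) (hflat r hr q hq)
    have ht := h.key_fixed (hflat s hs) (hflat r hr) (fun c hc => Fl_conj hc)
      (fun c hc => Fl_conj hc) (mem_Fl) (phi_mem_Fl) hq hz hzs
    have hmem : φ s * (z * φ s * z⁻¹)⁻¹ ∈ Fl φ s :=
      mul_mem phi_mem_Fl (inv_mem (Fl_conj hz _ phi_mem_Fl))
    have h1 := htriv s hs _ hmem ht
    have h2 : φ s = z * φ s * z⁻¹ := mul_inv_eq_one.1 h1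
    have h3 : Commute z (φ s) := by
      have : z * φ s = φ s * z := by
        nth_rewrite 2 [h2]; group
      exact this
    have h4 : Commute z s := by
      have := h3.map φ
      rw [h.phi_C hz, show φ (φ s) = s⁻¹ from hS s hs] at this
      have h5 := this.inv_left.inv_right
      rwa [inv_inv, inv_inv] at h5
    have h6 := hcen s hs z hz h4
    rw [h6, one_mul, mul_one] at hzs
    exact hzs.symm
  -- the flat is normal
  intro s hs
  have hFlcomm : ∀ r ∈ S, ∀ q ∈ Fl φ s, ∀ y ∈ Fl φ r, Commute q y := by
    intro r hr q hq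
    have hle : Fl φ s ≤ Subgroup.centralizer (Fl φ r : Set G) := by
      rw [Fl, closure_le]
      rintro x ⟨c, hc, rfl | rfl⟩
      · change _ ∈ Subgroup.centralizer (Fl φ r : Set G)
        rw [Subgroup.mem_centralizer_iff]
        intro y hy
        have h1 := hcomm s hs r hr (c⁻¹ * y * c) (by
          have := Fl_conj (φ := φ) (s := r) (inv_mem hc) y hy
          rwa [inv_inv] at this)
        have h2 := (Commute.conj_iff c).2 h1
        have e : c * (c⁻¹ * y * c) * c⁻¹ = y := by group
        rw [e] at h2
        exact h2.symm.eq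
      · change _ ∈ Subgroup.centralizer (Fl φ r : Set G)
        rw [Subgroup.mem_centralizer_iff]
        intro y hy
        have hy3 : φ (φ (φ (c⁻¹ * y * c))) ∈ Fl φ r := by
          apply Fl_phi h (hS r hr)
          apply Fl_phi h (hS r hr)
          apply Fl_phi h (hS r hr)
          have := Fl_conj (φ := φ) (s := r) (inv_mem hc) y hy
          rwa [inv_inv] at this
        have h1 := (hcomm s hs r hr _ hy3).map φ
        rw [h.four] at h1
        have h2 := (Commute.conj_iff c).2 h1
        have e : c * (c⁻¹ * y * c) * c⁻¹ = y := by group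
        rw [e] at h2
        exact h2.symm.eq
    intro y hy
    exact ((Subgroup.mem_centralizer_iff.1 (hle hq)) y hy).symm
  have hnorm : (Fl φ s).Normal := by
    have hle : (⊤ : Subgroup G) ≤ Subgroup.normalizer (Fl φ s : Set G) := by
      rw [← hgen]
      apply Gen_le
      · intro c hc
        rw [Subgroup.mem_normalizer_iff]
        intro x
        constructor
        · exact fun hx => Fl_conj hc x hx
        · intro hx
          have := Fl_conj (φ := φ) (s := s) (inv_mem hc) _ hx
          have e : c⁻¹ * (c * x * c⁻¹) * c⁻¹⁻¹ = x := by group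
          rwa [e] at this
      · intro r hr
        have key : ∀ y ∈ Fl φ r, y ∈ Subgroup.normalizer (Fl φ s : Set G) := by
          intro y hy
          rw [Subgroup.mem_normalizer_iff]
          intro x
          constructor
          · intro hx
            have : y * x * y⁻¹ = x := by
              rw [← (hFlcomm r hr x hx y hy).eq]; group
            rwa [this]
          · intro hx
            have h1 := (hFlcomm r hr _ hx y hy).eq
            have : x = y * x * y⁻¹ := by
              calc x = y⁻¹ * (y * x * y⁻¹ * y) := by group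
                _ = y⁻¹ * (y * (y * x * y⁻¹)) := by rw [h1]
                _ = y * x * y⁻¹ := by group
            rw [this]; exact hx
        exact ⟨key r mem_Fl, key (φ r) phi_mem_Fl⟩
    rw [← Subgroup.normalizer_eq_top_iff]
    exact top_le_iff.1 hle
  have hbot : Fl φ s = ⊥ := by
    apply hrad _ hnorm (Fl_phi h (hS s hs))
    apply LS_comm ?_ h.tors
    intro x hx y hy
    exact Cls.commute_of_Inv (hflat s hs) hx hy
  have : s ∈ Fl φ s := mem_Fl
  rw [hbot, Subgroup.mem_bot] at this
  exact this


end Core

universe u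

theorem main_induct (n : ℕ) : ∀ (G : Type u) [Group G] (φ : G →* G), Cls φ →
    ∀ S : Finset G, S.card = n → (∀ s ∈ S, Inv φ s) → Gen φ (S : Set G) = ⊤ →
    LS (⊤ : Subgroup G) := by
  induction n using Nat.strong_induction_on with
  | _ n ih =>
    intro G _ φ h S hcard hS hgen
    classical
    obtain ⟨R, hRn, hRφ, hRLF, hRmax⟩ := KS6_98.R4.exists_radical φ
    have hRc : R ≤ R.comap φ := hRφ
    set ψ := QuotientGroup.map R R φ hRc with hψ
    have hψC : Cls ψ := h.quot R hRc
    have hψmk : ∀ g : G, ψ (QuotientGroup.mk' R g) = QuotientGroup.mk' R (φ g) := by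
      intro g; rfl
    -- trivial radical in the quotient
    have hrad : ∀ N : Subgroup (G ⧸ R), N.Normal → (∀ x ∈ N, ψ x ∈ N) → LS N → N = ⊥ := by
      intro N hN hNψ hNLF
      have hM : N.comap (QuotientGroup.mk' R) = R := by
        apply hRmax
        · exact hN.comap _
        · intro x hx
          rw [mem_comap] at hx ⊢
          rw [← hψmk]
          exact hNψ _ hx
        · apply LS_ext hRLF
          rw [Subgroup.map_comap_eq_self_of_surjective (QuotientGroup.mk'_surjective R)]
          exact hNLF
        · intro x hx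
          rw [mem_comap]
          have : QuotientGroup.mk' R x = 1 := (QuotientGroup.eq_one_iff x).2 hx
          rw [this]; exact one_mem _
      rw [eq_bot_iff]
      intro x hx
      obtain ⟨g, rfl⟩ := QuotientGroup.mk'_surjective R x
      have hg : g ∈ N.comap (QuotientGroup.mk' R) := hx
      rw [hM] at hg
      rw [Subgroup.mem_bot]
      exact (QuotientGroup.eq_one_iff g).2 hg
    -- generators of the quotient
    set T : Finset (G ⧸ R) := S.image (QuotientGroup.mk' R) with hT
    have hTcard : T.card ≤ n := by rw [← hcard]; exact Finset.card_image_le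
    have hTinv : ∀ t ∈ T, Inv ψ t := by
      intro t ht
      rw [hT, Finset.mem_image] at ht
      obtain ⟨s, hs, rfl⟩ := ht
      change ψ (ψ _) = _
      rw [hψmk, hψmk, show φ (φ s) = s⁻¹ from hS s hs, map_inv]
    have hTgen : Gen ψ (T : Set (G ⧸ R)) = ⊤ := by
      rw [eq_top_iff]
      intro x _
      obtain ⟨g, rfl⟩ := QuotientGroup.mk'_surjective R x
      have hg : g ∈ Gen φ (S : Set G) := by rw [hgen]; exact mem_top g
      have hle : Gen φ (S : Set G) ≤ (Gen ψ (T : Set (G ⧸ R))).comap (QuotientGroup.mk' R) := by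
        apply Gen_le
        · intro c hc
          rw [mem_comap]
          apply C_le_Gen
          change ψ (ψ _) = _
          rw [hψmk, hψmk, show φ (φ c) = c from hc]
        · intro s hs
          have hsT : QuotientGroup.mk' R s ∈ (T : Set (G ⧸ R)) := by
            rw [hT]; exact Finset.mem_coe.2 (Finset.mem_image_of_mem _ hs)
          refine ⟨mem_Gen hsT, ?_⟩
          rw [mem_comap, ← hψmk]
          exact phi_mem_Gen hsT
      exact hle hg
    -- it suffices to treat the quotient
    suffices htop : LS (⊤ : Subgroup (G ⧸ R)) by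
      apply LS_ext hRLF
      exact LS.mono le_top htop
    rcases T.eq_empty_or_nonempty with hTe | ⟨t, ht⟩
    · -- the quotient is commutative
      have hCtop : ∀ x : G ⧸ R, x ∈ Cs ψ := by
        intro x
        have hx : x ∈ Gen ψ (T : Set (G ⧸ R)) := by rw [hTgen]; exact mem_top x
        have hle : Gen ψ (T : Set (G ⧸ R)) ≤ Cs ψ := by
          apply Gen_le le_rfl
          intro y hy
          rw [hTe] at hy
          simp at hy
        exact hle hx
      apply LS_comm ?_ hψC.tors
      intro x _ y _
      exact hψC.comm_C (hCtop x) (hCtop y)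
    · have hsub : ∀ r ∈ T, LS (Gen ψ ((T : Set (G ⧸ R)) \ {r})) := by
        intro r hr
        have hEr : ((T : Set (G ⧸ R)) \ {r}) = ((T.erase r : Finset (G ⧸ R)) : Set (G ⧸ R)) := by
          rw [Finset.coe_erase]
        rw [hEr]
        set X := T.erase r with hX
        have hXinv : ∀ x ∈ (X : Set (G ⧸ R)), Inv ψ x := by
          intro x hx
          exact hTinv x (Finset.mem_of_mem_erase hx)
        have hK := Gen_inv hψC hXinv
        set K := Gen ψ (X : Set (G ⧸ R)) with hKdef
        set X' : Finset ↥K := X.subtype (· ∈ K) with hX'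
        have hmemX' : ∀ x : ↥K, x ∈ X' ↔ (x : G ⧸ R) ∈ X := by
          intro x; rw [hX', Finset.mem_subtype]
        have hcardX' : X'.card < n := by
          have h1 : X'.card ≤ X.card := by
            have : X'.card = (X'.image (fun x : ↥K => (x : G ⧸ R))).card :=
              (Finset.card_image_of_injective _ Subtype.val_injective).symm
            rw [this]
            apply Finset.card_le_card
            intro y hy
            rw [Finset.mem_image] at hy
            obtain ⟨x, hx, rfl⟩ := hy
            exact (hmemX' x).1 hx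
          have h2 : X.card < T.card := Finset.card_erase_lt_of_mem hr
          omega
        have h3 := ih X'.card hcardX' ↥K (resHom ψ K hK) (hψC.res K hK) X' rfl
          (by
            intro s hs
            exact Subtype.ext (hXinv _ ((hmemX' s).1 hs)))
          (Gen_res_top X K hKdef hK X' hmemX')
        have h4 := LS_map_subtype h3
        rw [← MonoidHom.range_eq_map, K.range_subtype] at h4
        exact h4
      have hone := core hψC (T : Set (G ⧸ R)) hTinv hTgen hrad hsub t ht
      have hle : Gen ψ (T : Set (G ⧸ R)) ≤ Gen ψ ((T : Set (G ⧸ R)) \ {t}) := by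
        apply Gen_le (C_le_Gen _)
        intro x hx
        by_cases hxt : x = t
        · rw [hxt, hone, map_one]
          exact ⟨one_mem _, one_mem _⟩
        · exact ⟨mem_Gen ⟨hx, hxt⟩, phi_mem_Gen ⟨hx, hxt⟩⟩
      rw [hTgen] at hle
      exact LS.mono hle (hsub t ht)

/-- groups in the class are locally finite and soluble -/
theorem locallySoluble {G : Type u} [Group G] {φ : G →* G} (h : Cls φ) :
    LS (⊤ : Subgroup G) := by
  classical
  have key : ∀ s : Finset G, ∃ K : Subgroup G, LS K ∧ ∀ x ∈ s, x ∈ K := by
    intro s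
    choose c hc d hd hcd using h.decomp
    set D : Finset G := s.image d with hD
    have hDinv : ∀ x ∈ (D : Set G), Inv φ x := by
      intro x hx
      rw [hD, Finset.mem_coe, Finset.mem_image] at hx
      obtain ⟨y, _, rfl⟩ := hx
      exact hd y
    have hK := Gen_inv h hDinv
    set K := Gen φ (D : Set G) with hKdef
    set D' : Finset ↥K := D.subtype (· ∈ K) with hD'
    have hmem : ∀ x : ↥K, x ∈ D' ↔ (x : G) ∈ D := by
      intro x; rw [hD', Finset.mem_subtype]
    have h3 := main_induct D'.card ↥K (resHom φ K hK) (h.res K hK) D' rfl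
      (by
        intro x hx
        exact Subtype.ext (hDinv _ ((hmem x).1 hx)))
      (Gen_res_top D K hKdef hK D' hmem)
    have h4 := LS_map_subtype h3
    rw [← MonoidHom.range_eq_map, K.range_subtype] at h4
    refine ⟨K, h4, ?_⟩
    intro x hx
    rw [hcd x]
    apply mul_mem
    · exact C_le_Gen _ (hc x)
    · apply mem_Gen
      rw [hD]
      exact Finset.mem_coe.2 (Finset.mem_image_of_mem _ hx)
  refine ⟨?_, ?_⟩
  · intro s _
    obtain ⟨K, hK, hs⟩ := key s
    exact hK.1 s hs
  · intro s _
    obtain ⟨K, hK, hs⟩ := key s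
    exact hK.2 s hs

end KS6_98.R4
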